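import Pool.Agent.Y572.UG.Deg

/-!
Reductions from sparse systems of linear equations over the field of two elements to unique games,
such that for every edge the assignments whose honest labeling satisfies it form a zero set of
polynomials of degree at most `r`: completeness `1 - ε` forces the value of every produced game,
also for right-hand sides that are almost half violated, to be at least `1 - 2 ^ r * ε - η`.
-/

namespace Pool.Agent.Results.MP_325f1f_lc.DegreeBarrier

open Finset

/-- the left-hand side of equation `j`, `x (c j 0) + x (c j 1) + x (c j 2)`, at the assignment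
`x` -/
def lhs {n m : ℕ} (c : Fin m → Fin 3 → Fin n) (x : Fin n → ZMod 2) (j : Fin m) : ZMod 2 :=
  ∑ i, x (c j i)

/-- A reduction from the system with left-hand sides `lhs c` to unique games with alphabet `A` and
edges `(s e, t e)`: `π e b` is the permutation of the edge `e` for the right-hand side `b` of the
system, and `h x` is the honest labeling for the assignment `x`, to be used in the game of the
right-hand side `lhs c x`, which `x` solves. -/
structure IsReduction {n m : ℕ} {V E A : Type} [Fintype E] [DecidableEq A]
    (c : Fin m → Fin 3 → Fin n) (s t : E → V) (π : E → (Fin m → ZMod 2) → Equiv.Perm A)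
    (h : (Fin n → ZMod 2) → V → A) (d r : ℕ) (ε : ℝ) : Prop where
  /-- every permutation is determined by at most `d` entries of the right-hand side, which may be
  chosen adaptively -/
  reads : ∀ e b, ∃ S : Finset (Fin m), S.card ≤ d ∧
    ∀ b', (∀ j ∈ S, b j = b' j) → π e b = π e b'
  /-- for every edge the assignments whose honest labeling satisfies it are the common zeros of
  polynomials of degree at most `r` -/
  degree : ∀ e, ∃ Z : Set (MvPolynomial (Fin n) (ZMod 2)), (∀ P ∈ Z, P.totalDegree ≤ r) ∧
    ∀ x, π e (lhs c x) (h x (s e)) = h x (t e) ↔ ∀ P ∈ Z, MvPolynomial.eval x P = 0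
  /-- on average over the assignments, the honest labeling violates at most a fraction `ε` of the
  edges -/
  complete : ∑ x : Fin n → ZMod 2, ((univ.filter fun e => π e (lhs c x) (h x (s e)) ≠
    h x (t e)).card : ℝ) ≤ ε * Fintype.card E * 2 ^ n

/-- For every `η > 0` there are sparse systems of `m ≤ M * n` equations in `n` variables over the
field of two elements, with three different variables in each equation, such that some right-hand
side is violated by every assignment in at least `(1 / 2 - η) * m` of the equations, and such that
no reduction of degree `r` with completeness `1 - ε` has soundness below `1 - 2 ^ r * ε - η`: for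
every right-hand side `b` some labeling satisfies at least this fraction of the edges of the game
with the permutations `π e b`. -/
theorem result (η : ℝ) (hη : 0 < η) :
    ∃ M : ℕ, ∃ c0 : ℝ, 0 < c0 ∧ ∃ n0 : ℕ, ∀ n : ℕ, n0 ≤ n →
      ∃ (m : ℕ) (c : Fin m → Fin 3 → Fin n),
        n ≤ 2 * m ∧ m ≤ M * n ∧ (∀ j, Function.Injective (c j)) ∧
        (∃ b : Fin m → ZMod 2, ∀ x : Fin n → ZMod 2,
          (1 / 2 - η) * m ≤ (univ.filter fun j => lhs c x j ≠ b j).card) ∧
        ∀ (V E A : Type) [Fintype V] [Fintype E] [Fintype A] [DecidableEq A] (s t : E → V)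
          (π : E → (Fin m → ZMod 2) → Equiv.Perm A) (h : (Fin n → ZMod 2) → V → A)
          (d r : ℕ) (ε : ℝ),
          IsReduction c s t π h d r ε →
          Fintype.card A * d * (Real.log (Fintype.card V) + 1) ≤ c0 * n →
          ∀ b : Fin m → ZMod 2, ∃ X : V → A,
            (1 - 2 ^ r * ε - η) * (Fintype.card E : ℝ) ≤
              ((univ.filter fun e => π e b (X (s e)) = X (t e)).card : ℝ) := by
  obtain ⟨M, c0, hc0, n0, h0⟩ := Pool.Agent.Y572.Deg.degree_barrier η hη
  refine ⟨M, c0, hc0, n0, fun n hn => ?_⟩
  obtain ⟨m, c, h1, h2, h3, h4, h5⟩ := h0 n hn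
  refine ⟨m, c, h1, h2, h3, h4, ?_⟩
  intro V E A _ _ _ _ s t π h d r ε hR hsize b
  exact h5 V E A s t d r π h ε hR.reads hR.degree hR.complete hsize b

end Pool.Agent.Results.MP_325f1f_lc.DegreeBarrier
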