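import Pool.Agent.Y572.SA.Main

/-!
Unique games, every completeness `c` and every soundness `s`: the level of the plain
Sherali-Adams hierarchy (a linear program, no semidefinite constraint) with exponent
`O(x log (2/x))`, `x = log (1/c) / log (1/s)`, tells value at least `c` from value less than
`s / 2 ^ 22`.
-/

namespace Pool.Agent.Results.MP_325f1f_lc.EverySoundnessLP

open Finset

/-- `f` depends only on the labels of the vertices in `S`. -/
def DependsOn {W A : Type} (S : Finset W) (f : (W → A) → ℝ) : Prop :=
  ∀ x y : W → A, (∀ w ∈ S, x w = y w) → f x = f y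

/-- `L` is a solution of level `k` of the Sherali-Adams hierarchy: a normalised linear functional
on the functions of a labeling which is nonnegative on all nonnegative functions of at most `k`
labels. Only the values of `L` on functions of at most `k` labels matter. There is no
semidefinite constraint. -/
structure IsSheraliAdams {W A : Type} (k : ℕ) (L : ((W → A) → ℝ) →ₗ[ℝ] ℝ) : Prop where
  one : L (fun _ => 1) = 1
  nonneg : ∀ S : Finset W, S.card ≤ k → ∀ f : (W → A) → ℝ, DependsOn S f → (∀ x, 0 ≤ f x) →
    0 ≤ L f

/-- Let a unique game have the sides `U` and `V`, a finite alphabet `A` and finitely many edges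
`e = (u e, v e)` with permutations `π e`, and let `0 < s < c < 1` and
`x = log (1/c) / log (1/s)`. If some level
`k ≥ 2 ^ 27 * (1 + log |U|) * |U| ^ (2 ^ 26 * x * log (2/x))` of the Sherali-Adams hierarchy has a
solution of value at least `c`, then some labeling satisfies at least a fraction `s / 2 ^ 22` of
the edges. -/
theorem result (U V A E : Type) [Fintype U] [Fintype V] [Fintype A] [DecidableEq A] [Fintype E]
    (u : E → U) (v : E → V) (π : E → Equiv.Perm A) (c s x : ℝ) (k : ℕ)
    (L : ((U ⊕ V → A) → ℝ) →ₗ[ℝ] ℝ) (hs : 0 < s) (hsc : s < c) (hc : c < 1)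
    (hx : x = Real.log (1 / c) / Real.log (1 / s))
    (hk : 2 ^ 27 * ((1 + Real.log (Fintype.card U)) *
      (Fintype.card U : ℝ) ^ (2 ^ 26 * (x * Real.log (2 / x)))) ≤ k)
    (hL : IsSheraliAdams k L)
    (hval : c * (Fintype.card E : ℝ)
      ≤ ∑ e, L (fun X => if π e (X (Sum.inl (u e))) = X (Sum.inr (v e)) then 1 else 0)) :
    ∃ X : U ⊕ V → A, s / 2 ^ 22 * (Fintype.card E : ℝ)
      ≤ ((univ.filter fun e => π e (X (Sum.inl (u e))) = X (Sum.inr (v e))).card : ℝ) :=
  Pool.Agent.Y572.SA.main_sa U V A E u v π c s x k L hs hsc hc hx hk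
    ⟨hL.one, hL.nonneg⟩ hval

end Pool.Agent.Results.MP_325f1f_lc.EverySoundnessLP
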