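import Pool.Agent.Y572.UG.Local

/-!
Local reductions from gap 3-SAT to unique games must be large, for every completeness and every
soundness. The definitions `Clause`, `Satisfies` and `falsified` used in the statement are in
`Pool/Agent/W888/GX/Mix.lean`.

For some formulas `F` in `n` variables with `O(n)` clauses, at most a fraction `7 / 8 + η` of which
can be satisfied, every unique game which represents `F` with locality `D` and completeness `c`, and
in which no labeling satisfies a fraction `s / 2 ^ 19` of the edges, has more than
`(c0 n / D) ^ (1 / (2 ^ 25 x log (2/x)))` vertices in `U`, `x = log (1/c) / log (1/s)`. So a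
reduction of polynomial size has labels which depend on `n ^ (1 - O(x log (2/x)))` variables. This
is unconditional.
-/

namespace Pool.Agent.Results.MP_325f1f_lc.LocalReductionSize

open Finset Pool.Agent.W888.GX

/-- The value `f z` depends only on the variables in `S`. -/
def Reads {n : ℕ} {β : Type} (f : (Fin n → ZMod 2) → β) (S : Finset (Fin n)) : Prop :=
  ∀ z z' : Fin n → ZMod 2, (∀ i ∈ S, z i = z' i) → f z = f z'

/-- The assignment `z` satisfies all clauses of `F` all of whose variables are in `S`. -/
def SatOn {n k : ℕ} {I : Type} (F : I → Clause k n) (S : Finset (Fin n))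
    (z : Fin n → ZMod 2) : Prop :=
  ∀ i, (∀ l, (F i l).1 ∈ S) → Satisfies z (F i)

/-- The number of edges which the labeling `X` satisfies in the unique game with the edges
`(u e, v e)` and the constraints `π e (label of u e) = label of v e`. -/
def satisfied {U V A E : Type} [Fintype E] [DecidableEq A] (u : E → U) (v : E → V)
    (π : E → Equiv.Perm A) (X : U ⊕ V → A) : ℕ :=
  (univ.filter fun e => π e (X (Sum.inl (u e))) = X (Sum.inr (v e))).card

/-- The formula `F` is represented in the unique game `(u, v, π)` with locality `D` and completeness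
`c`: every assignment `z` of the variables has an honest labeling `enc z`, each label of which
depends on at most `D` of the variables, and the number of satisfied edges is

`satisfied (enc z) = c |E| + ∑ p, g p z`,

where each term `g p z` depends on a set `T p` of at most `D` variables and is nonnegative if `z`
satisfies the clauses of `F` inside `T p`. So if `z` satisfies `F` then its honest labeling
satisfies at least `c |E|` edges, and this can be checked locally. (If the edges are partitioned
into gadgets `E_p`, and the honest labeling of every locally satisfying assignment satisfies at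
least a fraction `c` of the edges of each gadget, then take `g p z = (satisfied edges in E_p) -
c |E_p|`.) -/
def Represents {n k : ℕ} {I U V A E : Type} [Fintype E] [DecidableEq A] (F : I → Clause k n)
    (D : ℕ) (c : ℝ) (u : E → U) (v : E → V) (π : E → Equiv.Perm A) : Prop :=
  ∃ (enc : (Fin n → ZMod 2) → U ⊕ V → A) (P : Type) (_ : Fintype P) (T : P → Finset (Fin n))
    (g : P → (Fin n → ZMod 2) → ℝ),
    (∀ w, ∃ S : Finset (Fin n), S.card ≤ D ∧ Reads (fun z => enc z w) S) ∧
    (∀ p, (T p).card ≤ D ∧ Reads (g p) (T p) ∧ ∀ z, SatOn F (T p) z → 0 ≤ g p z) ∧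
    ∀ z, (satisfied u v π (enc z) : ℝ) = c * Fintype.card E + ∑ p, g p z

/-- For every `η > 0` there are `M` and `c0 > 0` such that for all large `n` there is a formula `F`
with at least `n` and at most `M n` clauses, with three literals each, over `n` variables, every
assignment of which falsifies at least a fraction `1 / 8 - η` of the clauses, and with the following
property. Let `D ≥ 1`, `0 < s < c < 1` and `x = log (1/c) / log (1/s)`. If a unique game represents
`F` with locality `D` and completeness `c`, and every labeling satisfies less than a fraction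
`s / 2 ^ 19` of its edges, then `|U| > (c0 n / D) ^ (1 / (2 ^ 25 x log (2/x)))`. -/
theorem result : ∀ η : ℝ, 0 < η →
    ∃ M : ℕ, 1 ≤ M ∧ ∃ c0 : ℝ, 0 < c0 ∧ ∃ n₀ : ℕ, ∀ n : ℕ, n₀ ≤ n →
      ∃ (I : Type) (_ : Fintype I) (F : I → Clause 3 n),
        n ≤ Fintype.card I ∧ Fintype.card I ≤ M * n ∧
        (∀ z, (1 / 8 - η) * (Fintype.card I : ℝ) ≤ (falsified F z : ℝ)) ∧
        ∀ (D : ℕ) (c s x : ℝ) (U V E A : Type) [Fintype U] [Fintype V] [Fintype E] [Fintype A]
          [DecidableEq A] (u : E → U) (v : E → V) (π : E → Equiv.Perm A), 1 ≤ D →
          0 < s → s < c → c < 1 → x = Real.log (1 / c) / Real.log (1 / s) →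
          Represents F D c u v π →
          (∀ X : U ⊕ V → A, (satisfied u v π X : ℝ) < s / 2 ^ 19 * Fintype.card E) →
          (c0 * n / D) ^ (1 / (2 ^ 25 * (x * Real.log (2 / x)))) < Fintype.card U := by
  intro η hη
  obtain ⟨M, hM, c0, hc0, n0, h0⟩ := Pool.Agent.Y572.UG.local_large η hη
  refine ⟨M, hM, c0, hc0, n0, fun n hn => ?_⟩
  obtain ⟨I, hI, F, h1, h2, h3, h4⟩ := h0 n hn
  refine ⟨I, hI, F, h1, h2, h3, ?_⟩
  intro D c s x U V E A _ _ _ _ _ u v π hD hs hsc hc hx hR hno
  obtain ⟨enc, P, hP, T, g, henc, hg, hv⟩ := hR
  refine h4 D c s x U V E A u v π hD hs hsc hc hx ⟨enc, P, hP, T, g, henc, hg, fun z => ?_⟩ hno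
  have h5 : (satisfied u v π (enc z) : ℝ) + (Pool.Agent.TH700.UG.violated
      (fun e => (Sum.inl (u e) : U ⊕ V)) (fun e => Sum.inr (v e)) π (enc z) : ℝ) =
      Fintype.card E := by
    exact_mod_cast card_filter_add_card_filter_not (s := (univ : Finset E)) _
  rw [hv z] at h5
  linarith

end Pool.Agent.Results.MP_325f1f_lc.LocalReductionSize
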